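import Mathlib
import Pool.Agent.N290.RL.Stm
import Pool.Agent.N290.RK.Stm2
import Pool.Agent.N290.RJ.SmR
import Pool.Agent.N704.RJ.S2S3

/-!
# Project RL (helper290), task YF (helper453): estimates of the dilated function
-/

set_option autoImplicit false

open Complex MeasureTheory Set Filter Topology
open scoped ENNReal

namespace Pool.Agent.N453.RL

open Pool.Agent.N290.RJ Pool.Agent.N290.RK Pool.Agent.N290.RL

theorem YF_of (d : ℕ) (hR : RAY d) (hN : YN d) : YF d := by
  intro a f ha hf hf3 j z hz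
  have h3 : Pool.Agent.N290.RJ.S3 d := Pool.Agent.N704.RJ.S3 d
  obtain ⟨hs0, hs1, hw0, hw1, -, -, -, hlen⟩ := hN z hz j
  set r := rad j with hr
  set r' := rad (j + 1) with hr'
  have hr0 : 0 ≤ r := rad_nonneg j
  have hr1 : r ≤ 1 := (rad_lt_one j).le
  have hr0' : 0 ≤ r' := rad_nonneg (j + 1)
  have hr1' : r' ≤ 1 := (rad_lt_one (j + 1)).le
  have hrr : r' - r = (1 / 2) ^ (j + 1) := rad_succ j
  have hrr' : r ≤ r' := by
    have : (0 : ℝ) < (1 / 2) ^ (j + 1) := by positivity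
    linarith
  have hx := x_pos hz
  have hrp := r_pos hz hr1
  have hrp' := r_pos hz hr1'
  have hn := nm_nonneg z
  have hfR : ∀ z ∈ (B d), ∀ ξ, ‖fderiv ℝ f z ξ‖ ≤ a z * len z ξ := by
    intro z hz ξ
    rw [fderivR_eq (da_hol hf hz)]
    exact hf3 z hz ξ
  have hst : st j z = (r' - r) * nm z / (1 - r' * nm z) := rfl
  have hmem := smul_mem_B hz hr0 hr1
  have har0 : 0 < a (r • z) := (ha.a2 _ hmem).1
  have haz0 : 0 < a z := (ha.a2 z hz).1
  have hratio : (1 - r * nm z) / (1 - r' * nm z) = 1 + st j z := by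
    rw [hst]
    have e2 := hrp'.ne'
    rw [div_eq_iff e2, add_mul, div_mul_cancel₀ _ e2]; ring
  have hd1 : ‖f (r' • z) - f (r • z)‖ ≤ 2 * a (r • z) * st j z := by
    rw [hst]
    refine h3 f z r r' _ ((cd_hol hf).differentiableOn (by norm_num)) hz hr0 hrr' hr1'
      (fun t ht0 ht1 η => ?_)
    have hm := smul_mem_B hz (hr0.trans ht0) (ht1.trans hr1')
    refine (hfR _ hm η).trans (mul_le_mul_of_nonneg_right ?_ (len_nonneg _ _))
    have hray := (hR a ha z hz r t hr0 ht0 (ht1.trans hr1')).2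
    refine hray.trans ?_
    rw [mul_comm 2]
    refine mul_le_mul_of_nonneg_left ?_ har0.le
    have htp := r_pos hz (ht1.trans hr1')
    have e1 : (1 - r * nm z) / (1 - t * nm z) ≤ 2 := by
      have : (1 - r * nm z) / (1 - t * nm z) ≤ (1 - r * nm z) / (1 - r' * nm z) := by
        apply div_le_div_of_nonneg_left hrp.le hrp'
        have := mul_le_mul_of_nonneg_right ht1 hn
        linarith
      rw [hratio] at this
      linarith
    have e0 : 0 ≤ (1 - r * nm z) / (1 - t * nm z) := div_nonneg hrp.le htp.le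
    calc ((1 - r * nm z) / (1 - t * nm z)) ^ (1 / 256 : ℝ) ≤ 2 ^ (1 / 256 : ℝ) :=
          Real.rpow_le_rpow e0 e1 (by norm_num)
      _ ≤ 2 ^ (1 : ℝ) := Real.rpow_le_rpow_of_exponent_le (by norm_num) (by norm_num)
      _ = 2 := Real.rpow_one 2
  have haw : a (r • z) ≤ a z / ww z j := by
    have hray := (hR a ha z hz r 1 hr0 hr1 le_rfl).1
    rw [one_smul, one_mul] at hray
    refine hray.trans ?_
    rw [div_eq_mul_inv (a z)]
    refine mul_le_mul_of_nonneg_left ?_ haz0.le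
    have e1 : (ww z j)⁻¹ = ((1 - r * nm z) / (1 - nm z)) ^ (1 / 16 : ℝ) := by
      unfold ww
      rw [← Real.inv_rpow (div_nonneg hx.le hrp.le), inv_div]
    rw [e1]
    refine Real.rpow_le_rpow_of_exponent_le ?_ (by norm_num)
    rw [le_div_iff₀ hx, one_mul]
    have := mul_le_mul_of_nonneg_right hr1 hn
    linarith
  have hd2 : ‖f (r' • z) - f (r • z)‖ ≤ 2 * (a z / ww z j) * st j z := by
    refine hd1.trans ?_
    refine mul_le_mul_of_nonneg_right ?_ hs0
    linarith
  have hd3 : ‖f (r' • z) - f (r • z)‖ ≤ st j z := by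
    have := h3 f z r r' 1 ((cd_hol hf).differentiableOn (by norm_num)) hz hr0 hrr' hr1'
      (fun t ht0 ht1 η => by
        have hm := smul_mem_B hz (hr0.trans ht0) (ht1.trans hr1')
        exact (hfR _ hm η).trans (mul_le_mul_of_nonneg_right (ha.a2 _ hm).2 (len_nonneg _ _)))
    rw [one_mul] at this
    exact this
  refine ⟨hd1, hd2, hd3, fun ξ => ?_⟩
  have hdf : DifferentiableAt ℂ (fun w => f (r • w)) z :=
    (dil_hasFDerivAt (da_hol hf hmem)).differentiableAt
  have hxj : fderiv ℝ (fun w => f (r • w)) z = (fderiv ℂ (fun w => f (r • w)) z).restrictScalars ℝ :=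
    hdf.fderiv_restrictScalars ℝ
  have hxj2 : ∀ η, fderiv ℝ (fun w => f (r • w)) z η = Pool.Agent.N290.RL.xj f j z η := by
    intro η
    rw [hxj]
    show fderiv ℂ (fun w => f (r • w)) z η = _
    rw [dil_fderiv (da_hol hf hmem)]
    rfl
  refine ⟨?_, hxj2 ξ, db_hol hdf ξ, ?_⟩
  · show ‖fderiv ℂ f (r • z) (r • ξ)‖ ≤ _
    refine (hf3 _ hmem _).trans ?_
    have hw0' : ww z j ≠ 0 := hw0.ne'
    calc a (r • z) * len (r • z) (r • ξ)
        ≤ (a z / ww z j) * (3 / 2 * ww z j ^ 8 * len z ξ) :=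
          mul_le_mul haw (hlen ξ) (len_nonneg _ _) (div_nonneg haz0.le hw0.le)
      _ = 3 / 2 * a z * ww z j ^ 7 * len z ξ := by field_simp
  · have hreal : DifferentiableAt ℝ (fun w => f (r • w)) z := hdf.restrictScalars ℝ
    have hc : HasFDerivAt (fun w => starRingEnd ℂ (f (r • w)))
        ((Complex.conjCLE : ℂ →L[ℝ] ℂ).comp (fderiv ℝ (fun w => f (r • w)) z)) z :=
      (Complex.conjCLE : ℂ →L[ℝ] ℂ).hasFDerivAt.comp z hreal.hasFDerivAt
    unfold db
    rw [hc.fderiv]
    have e2 : Pool.Agent.N290.RL.xj f j z (I • ξ) = I * Pool.Agent.N290.RL.xj f j z ξ := by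
      unfold Pool.Agent.N290.RL.xj
      rw [smul_comm (rad j) I ξ, map_smul, smul_eq_mul]
    simp only [ContinuousLinearMap.comp_apply, hxj2, e2]
    show (starRingEnd ℂ (Pool.Agent.N290.RL.xj f j z ξ) +
      I * starRingEnd ℂ (I * Pool.Agent.N290.RL.xj f j z ξ)) / 2 = _
    rw [map_mul, Complex.conj_I]
    have : I * (-I * starRingEnd ℂ (Pool.Agent.N290.RL.xj f j z ξ)) =
        starRingEnd ℂ (Pool.Agent.N290.RL.xj f j z ξ) := by
      rw [← mul_assoc, mul_neg, Complex.I_mul_I, neg_neg, one_mul]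
    rw [this]
    ring

end Pool.Agent.N453.RL
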